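import Pool.Agent.LRY.Stmts

/-!
# LRY row RTQ (the roots of `G - 1`), adaptation of LRG row ROO of helper62
-/

set_option autoImplicit false

open Polynomial

namespace Pool.Agent.LRY.H76

open Pool.Agent.LRY Pool.Agent.LRG.E

theorem eval_conj (P : ℤ[X]) (z : ℂ) :
    (P.map (Int.castRingHom ℂ)).eval ((starRingEnd ℂ) z) =
      (starRingEnd ℂ) ((P.map (Int.castRingHom ℂ)).eval z) := by
  rw [eval_map, eval_map, hom_eval₂]
  have h : (starRingEnd ℂ).comp (Int.castRingHom ℂ) = Int.castRingHom ℂ := RingHom.ext_int _ _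
  rw [h]

theorem rtq : RtqStmt := by
  classical
  intro hFct hSpc r₁ r₂ N a c hpar hN hr
  have hc : ∀ j, 0 ≤ c j := fun j => (sq_nonneg (N : ℤ)).trans (hpar.clo j)
  obtain ⟨-, -, -, hG'⟩ := hFct r₁ r₂ a c hc
  obtain ⟨s1, s2, s3⟩ := hSpc r₁ r₂ N a c hpar
  have hcard : Fintype.card (Ro r₁ r₂) = r₁ + 2 * r₂ := by
    simp [Fintype.card_sum, Fintype.card_prod, mul_comm]
  have hpos : 0 < Fintype.card (Ro r₁ r₂) := by rw [hcard]; omega
  have hNr : (2 : ℝ) ≤ N := by exact_mod_cast hN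
  have hN0 : (0 : ℝ) < N := by linarith
  have hGmon : ((Gq a c).map (Int.castRingHom ℂ)).Monic := by
    rw [hG']
    exact monic_prod_of_monic _ _ fun o _ => monic_X_sub_C _
  have hGdeg : ((Gq a c).map (Int.castRingHom ℂ)).natDegree = Fintype.card (Ro r₁ r₂) := by
    rw [hG', natDegree_prod_of_monic _ _ fun o _ => monic_X_sub_C _]
    simp
  have hf' : (Gq a c - 1).map (Int.castRingHom ℂ) =
      (Gq a c).map (Int.castRingHom ℂ) - 1 := by
    rw [Polynomial.map_sub, Polynomial.map_one]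
  have hfmon : ((Gq a c - 1).map (Int.castRingHom ℂ)).Monic := by
    rw [hf']
    refine hGmon.sub_of_left ?_
    rw [degree_one, degree_eq_natDegree hGmon.ne_zero, hGdeg]
    exact_mod_cast hpos
  have hfdeg : ((Gq a c - 1).map (Int.castRingHom ℂ)).natDegree =
      Fintype.card (Ro r₁ r₂) := by
    rw [hf', natDegree_sub_eq_left_of_natDegree_lt, hGdeg]
    rw [natDegree_one, hGdeg]
    exact hpos
  have hGev : ∀ z, ((Gq a c).map (Int.castRingHom ℂ)).eval z = ∏ o, (z - wr a c o) := by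
    intro z
    rw [hG', eval_prod]
    simp
  have hfw : ∀ o, ‖((Gq a c - 1).map (Int.castRingHom ℂ)).eval (wr a c o)‖ = 1 := by
    intro o
    rw [hf', eval_sub, hGev, Finset.prod_eq_zero (Finset.mem_univ o) (sub_self _)]
    simp
  obtain ⟨x, hx, hxw⟩ := Pool.Agent.Helper65_Dens.exists_close_roots hfmon hfdeg (wr a c)
    (fun o o' h => by linarith [s1 o o' h]) hfw
  have hxw' : ∀ o, ‖x o - wr a c o‖ ≤ 1 := fun o => by rw [norm_sub_rev]; exact hxw o
  have hlow : ∀ o o' : Ro r₁ r₂, o ≠ o' → (N : ℝ) ≤ ‖x o - wr a c o'‖ := by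
    intro o o' h
    have h1 := s1 o o' h
    have h2 := hxw o
    have h3 : ‖wr a c o - wr a c o'‖ ≤ ‖wr a c o - x o‖ + ‖x o - wr a c o'‖ :=
      norm_sub_le_norm_sub_add_norm_sub _ _ _
    linarith
  have hroot : ∀ o, ∏ o', (x o - wr a c o') = 1 := by
    intro o
    have h1 : ((Gq a c - 1).map (Int.castRingHom ℂ)).eval (x o) = 0 := by
      rw [hx, eval_prod, Finset.prod_eq_zero (Finset.mem_univ o)]
      simp
    rw [hf', eval_sub, eval_one, hGev] at h1
    exact sub_eq_zero.1 h1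
  have hone : ∀ o : Ro r₁ r₂, ∏ o' : Ro r₁ r₂, ‖x o - wr a c o'‖ = 1 := by
    intro o
    rw [← norm_prod, hroot o, norm_one]
  have hinj : Function.Injective x := by
    intro o o' h
    by_contra hne
    have h1 := hlow o o' hne
    rw [h] at h1
    have h2 := hxw' o'
    linarith
  refine ⟨x, ⟨hx, hone, fun o => ?_, hlow, fun o o' => ?_, hinj, fun o => ?_⟩⟩
  · rw [← hcard]
    have h1 := hone o
    rw [← Finset.mul_prod_erase Finset.univ _ (Finset.mem_univ o)] at h1
    have h2 : (N : ℝ) ^ (Fintype.card (Ro r₁ r₂) - 1) ≤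
        ∏ o' ∈ Finset.univ.erase o, ‖x o - wr a c o'‖ := by
      have h3 : (N : ℝ) ^ (Fintype.card (Ro r₁ r₂) - 1) =
          ∏ _o' ∈ Finset.univ.erase o, (N : ℝ) := by
        rw [Finset.prod_const, Finset.card_erase_of_mem (Finset.mem_univ o), Finset.card_univ]
      rw [h3]
      apply Finset.prod_le_prod (fun _ _ => by linarith)
      intro o' ho'
      exact hlow o o' (Finset.ne_of_mem_erase ho').symm
    have h4 : 0 < (N : ℝ) ^ (Fintype.card (Ro r₁ r₂) - 1) := pow_pos hN0 _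
    rw [le_div_iff₀ h4]
    calc ‖x o - wr a c o‖ * (N : ℝ) ^ (Fintype.card (Ro r₁ r₂) - 1)
        ≤ ‖x o - wr a c o‖ * ∏ o' ∈ Finset.univ.erase o, ‖x o - wr a c o'‖ :=
          mul_le_mul_of_nonneg_left h2 (norm_nonneg _)
      _ = 1 := h1
  · have h1 : ‖x o - wr a c o'‖ ≤ ‖x o - wr a c o‖ + ‖wr a c o - wr a c o'‖ :=
      norm_sub_le_norm_sub_add_norm_sub _ _ _
    have h2 := s2 o o'
    have h3 := hxw' o
    unfold bq
    nlinarith
  · have h1 : ((Gq a c - 1).map (Int.castRingHom ℂ)).eval (x o) = 0 := by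
      rw [hx, eval_prod, Finset.prod_eq_zero (Finset.mem_univ o)]
      simp
    have h2 := eval_conj (Gq a c - 1) (x o)
    rw [h1, map_zero, hx, eval_prod, Finset.prod_eq_zero_iff] at h2
    obtain ⟨o', -, ho'⟩ := h2
    rw [eval_sub, eval_X, eval_C, sub_eq_zero] at ho'
    rw [ho']
    by_contra hne
    have hne' : o' ≠ st o := fun h => hne (by rw [h])
    have h3 := hlow o' (st o) hne'
    rw [← ho', ← (s3 o).1, ← map_sub, Complex.norm_conj] at h3
    have h5 := hxw' o
    linarith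

end Pool.Agent.LRY.H76
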