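import Pool.Agent.LRY.Stmts

/-!
# LRY row UNQ (the units given by the factors of `G`), adaptation of LRG row UNT of helper10
-/

set_option autoImplicit false

open Polynomial NumberField

namespace Pool.Agent.LRY.H76

open Pool.Agent.LRY Pool.Agent.LRG.E

theorem unq : UnqStmt := by
  intro hF r₁ r₂ N a c x K _ _ θ e h
  classical
  have hc : ∀ j, 0 ≤ c j := fun j => (sq_nonneg (N : ℤ)).trans (h.par.clo j)
  obtain ⟨hk, hmon, hdeg, hmap⟩ := hF r₁ r₂ a c hc
  have hn : 0 < r₁ + 2 * r₂ := by rw [← h.deg]; exact Module.finrank_pos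
  have hroot : aeval θ (Gq a c) = 1 := by
    have := h.root
    rw [map_sub, map_one, sub_eq_zero] at this
    exact this
  have hθ : IsIntegral ℤ θ := by
    refine ⟨Gq a c - 1, ?_, ?_⟩
    · refine hmon.sub_of_left ?_
      rw [degree_one, degree_eq_natDegree hmon.ne_zero, hdeg]
      exact_mod_cast hn
    · exact h.root
  let θ' : 𝓞 K := ⟨θ, hθ⟩
  have hcoe : ∀ P : ℤ[X], ((aeval θ' P : 𝓞 K) : K) = aeval θ P := fun P =>
    (Polynomial.aeval_algebraMap_apply K θ' P).symm
  have hprod : ∏ k, aeval θ' (gq (r₁ := r₁) (r₂ := r₂) a c k) = 1 := by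
    have h1 : aeval θ' (Gq a c) = 1 := by
      apply RingOfIntegers.coe_injective
      exact ((hcoe _).trans hroot).trans (map_one (algebraMap (𝓞 K) K)).symm
    rw [← map_prod]; exact h1
  have hu : ∀ k, IsUnit (aeval θ' (gq (r₁ := r₁) (r₂ := r₂) a c k)) := fun k =>
    isUnit_of_dvd_one (hprod ▸ Finset.dvd_prod_of_mem _ (Finset.mem_univ k))
  have h2 : ∀ k, (((hu k).unit : 𝓞 K) : K) = aeval θ (gq a c k) := fun k => by
    rw [IsUnit.unit_spec, hcoe]
  refine ⟨fun k => (hu k).unit, h2, ?_, fun o k => ?_⟩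
  · apply Units.ext
    rw [Units.coe_prod, Units.val_one, ← hprod]
    exact Finset.prod_congr rfl fun k _ => IsUnit.unit_spec _
  rw [h2 k]
  have h3 : e o (aeval θ (gq a c k)) =
      ((gq (r₁ := r₁) (r₂ := r₂) a c k).map (Int.castRingHom ℂ)).eval (x o) := by
    rw [Polynomial.aeval_def, Polynomial.hom_eval₂, h.emb o, Polynomial.eval_map]
    congr 1
    exact RingHom.ext_int _ _
  rw [h3, (hk k).2.2, Polynomial.eval_prod, norm_prod]
  unfold dsq
  refine Finset.prod_congr ?_ (fun o' _ => by simp)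
  ext; simp

end Pool.Agent.LRY.H76
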